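import Pool.Agent.Helper23.EC.EGoals

/-!
# MP_ecc237_nt, Part E, packet ED5
-/

set_option autoImplicit false

open MeasureTheory Filter Topology Set

namespace Pool.Agent.Helper64.EC.E_ED5

open EC237

/-- majorant -/
noncomputable def bf (n : ℤ) : ℝ := (1 + 2 * |(n:ℝ)|) * Real.exp (-(Real.pi / 3 * (|(n:ℝ)| - 1)))

theorem bf_nonneg (n : ℤ) : 0 ≤ bf n := by
  unfold bf; positivity

theorem summable_bf_nat : Summable (fun n : ℕ => (1 + 2 * (n:ℝ)) *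
    Real.exp (-(Real.pi / 3 * ((n:ℝ) - 1)))) := by
  have hr : ‖Real.exp (-(Real.pi / 3))‖ < 1 := by
    rw [Real.norm_eq_abs, abs_of_pos (Real.exp_pos _)]
    rw [Real.exp_lt_one_iff] 
    have := Real.pi_pos
    linarith
  have h0 := summable_geometric_of_norm_lt_one hr
  have h1 := summable_pow_mul_geometric_of_norm_lt_one 1 hr
  have h2 := ((h0.add (h1.mul_left 2)).mul_left (Real.exp (Real.pi / 3)))
  refine h2.congr (fun n => ?_)
  have e : Real.exp (-(Real.pi / 3 * ((n:ℝ) - 1))) =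
      Real.exp (Real.pi / 3) * Real.exp (-(Real.pi / 3)) ^ n := by
    rw [← Real.exp_nat_mul, ← Real.exp_add]
    congr 1
    ring
  rw [e]
  ring

theorem summable_bf : Summable bf := by
  apply Summable.of_nat_of_neg
  · refine summable_bf_nat.congr (fun n => ?_)
    unfold bf
    rw [Int.cast_natCast, abs_of_nonneg (Nat.cast_nonneg n)]
  · refine summable_bf_nat.congr (fun n => ?_)
    unfold bf
    rw [Int.cast_neg, Int.cast_natCast, abs_neg, abs_of_nonneg (Nat.cast_nonneg n)]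

theorem ewt_nonneg (z : ℝ) (n : ℤ) : 0 ≤ ewt z n := by
  unfold ewt
  split_ifs
  · exact le_rfl
  · exact (Real.exp_pos _).le

theorem ewt_le (z : ℝ) (hz : 1 ≤ z) (n : ℤ) :
    (1 + 2 * |(n:ℝ)|) * ewt z n ≤ Real.exp (-(Real.pi / 3 * z)) * bf n := by
  unfold ewt
  split_ifs with h
  · rw [mul_zero]
    exact mul_nonneg (Real.exp_pos _).le (bf_nonneg n)
  · unfold bf
    have h1 : (1:ℝ) ≤ |(n:ℝ)| := by exact_mod_cast Int.one_le_abs h
    have h2 : Real.exp (-(Real.pi / 3 * |(n:ℝ)| * z)) ≤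
        Real.exp (-(Real.pi / 3 * z)) * Real.exp (-(Real.pi / 3 * (|(n:ℝ)| - 1))) := by
      rw [← Real.exp_add]
      apply Real.exp_le_exp.2
      have h3 : 0 ≤ Real.pi / 3 * ((|(n:ℝ)| - 1) * (z - 1)) := by
        have := Real.pi_pos
        have a1 : 0 ≤ |(n:ℝ)| - 1 := by linarith
        have a2 : 0 ≤ z - 1 := by linarith
        positivity
      nlinarith
    calc (1 + 2 * |(n:ℝ)|) * Real.exp (-(Real.pi / 3 * |(n:ℝ)| * z))
        ≤ (1 + 2 * |(n:ℝ)|) * (Real.exp (-(Real.pi / 3 * z)) *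
          Real.exp (-(Real.pi / 3 * (|(n:ℝ)| - 1)))) := by gcongr
      _ = _ := by ring

theorem MM_im (z : ℝ) (k m n1 : ℤ) : (MM z k m n1).im = ((k - 2 * n1 : ℤ) : ℝ) * z := by
  unfold MM
  simp

theorem MM_re (z : ℝ) (k m n1 : ℤ) : (MM z k m n1).re = (m : ℝ) := by
  unfold MM
  simp

theorem MM_bound (z : ℝ) (hz : 1 ≤ z) (k m n1 : ℤ) (hM : MM z k m n1 ≠ 0) :
    1 ≤ ‖MM z k m n1‖ ∧ |(k:ℝ)| ≤ (1 + 2 * |(n1:ℝ)|) * ‖MM z k m n1‖ ∧
    |(k:ℝ)| ≤ (1 + 2 * |((k - n1 : ℤ):ℝ)|) * ‖MM z k m n1‖ := by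
  by_cases h : k = 2 * n1
  · subst h
    have hm : m ≠ 0 := by
      intro hm
      apply hM
      apply Complex.ext
      · rw [MM_re, hm]; simp
      · rw [MM_im]; simp
    have h1 : (1:ℝ) ≤ |(m:ℝ)| := by exact_mod_cast Int.one_le_abs hm
    have h2 : |(m:ℝ)| ≤ ‖MM z (2 * n1) m n1‖ := by
      have := Complex.abs_re_le_norm (MM z (2 * n1) m n1)
      rwa [MM_re] at this
    have h3 : 1 ≤ ‖MM z (2 * n1) m n1‖ := h1.trans h2
    have e1 : |((2 * n1 : ℤ) : ℝ)| = 2 * |(n1:ℝ)| := by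
      push_cast
      rw [abs_mul]
      norm_num
    have e2 : (2 * n1 - n1 : ℤ) = n1 := by ring
    rw [e1, e2]
    have h4 := abs_nonneg (n1:ℝ)
    refine ⟨h3, ?_, ?_⟩ <;> nlinarith
  · have hne : k - 2 * n1 ≠ 0 := sub_ne_zero.2 h
    have h1 : (1:ℝ) ≤ |((k - 2 * n1 : ℤ):ℝ)| := by exact_mod_cast Int.one_le_abs hne
    have h2 : |((k - 2 * n1 : ℤ):ℝ)| ≤ ‖MM z k m n1‖ := by
      have := Complex.abs_im_le_norm (MM z k m n1)
      rw [MM_im, abs_mul, abs_of_nonneg (by linarith : (0:ℝ) ≤ z)] at this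
      nlinarith
    have h3 : 1 ≤ ‖MM z k m n1‖ := h1.trans h2
    have h4 := abs_nonneg (n1:ℝ)
    have h5 : |(k:ℝ)| ≤ |((k - 2 * n1 : ℤ):ℝ)| + 2 * |(n1:ℝ)| := by
      have : (k:ℝ) = ((k - 2 * n1 : ℤ):ℝ) + 2 * (n1:ℝ) := by push_cast; ring
      calc |(k:ℝ)| = |((k - 2 * n1 : ℤ):ℝ) + 2 * (n1:ℝ)| := by rw [← this]
        _ ≤ |((k - 2 * n1 : ℤ):ℝ)| + |2 * (n1:ℝ)| := abs_add_le _ _
        _ = _ := by rw [abs_mul]; norm_num
    have h6 := abs_nonneg ((k - n1 : ℤ):ℝ)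
    have h7 : |(k:ℝ)| ≤ |((k - 2 * n1 : ℤ):ℝ)| + 2 * |((k - n1 : ℤ):ℝ)| := by
      have : (k:ℝ) = -((k - 2 * n1 : ℤ):ℝ) + 2 * ((k - n1 : ℤ):ℝ) := by push_cast; ring
      calc |(k:ℝ)| = |-((k - 2 * n1 : ℤ):ℝ) + 2 * ((k - n1 : ℤ):ℝ)| := by rw [← this]
        _ ≤ |-((k - 2 * n1 : ℤ):ℝ)| + |2 * ((k - n1 : ℤ):ℝ)| := abs_add_le _ _
        _ = _ := by rw [abs_mul, abs_neg]; norm_num
    refine ⟨h3, ?_, ?_⟩ <;> nlinarith

theorem div_pow_le (x M : ℂ) (w : ℝ) (hM : 1 ≤ ‖M‖) (hx : ‖x‖ ≤ w) (p : ℕ) :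
    ‖x / M ^ (p + 1)‖ ≤ w / ‖M‖ := by
  rw [norm_div, norm_pow]
  have h0 : 0 < ‖M‖ := by linarith
  have hw : 0 ≤ w := (norm_nonneg x).trans hx
  rw [div_le_div_iff₀ (by positivity) h0]
  have h1 : ‖M‖ ≤ ‖M‖ ^ (p + 1) := by
    calc ‖M‖ = ‖M‖ ^ 1 := by ring
      _ ≤ ‖M‖ ^ (p + 1) := pow_le_pow_right₀ hM (by omega)
  exact mul_le_mul hx h1 h0.le hw

theorem FX_diff (z : ℝ) (hz : 1 ≤ z) (j : ℕ) (hj : j = 0 ∨ j = 2)
    (M S U2 U3 V2 V3 S' U2' U3' V2' V3' : ℂ) (w : ℝ)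
    (hM : 1 ≤ ‖M‖) (hS : ‖S - S'‖ ≤ w) (hU2 : ‖U2 - U2'‖ ≤ w) (hU3 : ‖U3 - U3'‖ ≤ w)
    (hV2 : ‖V2 - V2'‖ ≤ w) (hV3 : ‖V3 - V3'‖ ≤ w) (a a' : ℂ) (ha : a = 1) (ha' : a' = -1) :
    ‖FX z a a' j M S U2 U3 V2 V3 - FX z a a' j M S' U2' U3' V2' V3'‖ ≤
      10 * z ^ 4 * (w / ‖M‖) := by
  subst ha ha'
  have hw : 0 ≤ w := (norm_nonneg _).trans hS
  have hM0 : 0 < ‖M‖ := by linarith
  have hwM : 0 ≤ w / ‖M‖ := by positivity
  have hMne : M ≠ 0 := norm_pos_iff.1 hM0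
  rcases hj with rfl | rfl
  · have e : FX z 1 (-1) 0 M S U2 U3 V2 V3 - FX z 1 (-1) 0 M S' U2' U3' V2' V3' =
        (z:ℂ) ^ 2 * ((S - S') / M ^ (0 + 1)) := by
      unfold FX
      simp only [if_true]
      ring
    rw [e, norm_mul, norm_pow, Complex.norm_real, Real.norm_eq_abs,
      abs_of_nonneg (by linarith : (0:ℝ) ≤ z)]
    have h1 := div_pow_le (S - S') M w hM hS 0
    have h2 : z ^ 2 ≤ 10 * z ^ 4 := by nlinarith [pow_le_pow_right₀ hz (by norm_num : 2 ≤ 4)]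
    exact mul_le_mul h2 h1 (norm_nonneg _) (by positivity)
  · have e : FX z 1 (-1) 2 M S U2 U3 V2 V3 - FX z 1 (-1) 2 M S' U2' U3' V2' V3' =
        -((z:ℂ) ^ 4 * ((U3 - U3') / M ^ (0 + 1) + 2 * ((U2 - U2') / M ^ (1 + 1)) +
          4 * ((S - S') / M ^ (2 + 1)) + 2 * ((V2 - V2') / M ^ (1 + 1)) +
          (V3 - V3') / M ^ (0 + 1))) := by
      unfold FX
      simp only [OfNat.ofNat_ne_zero, OfNat.ofNat_ne_one, if_false]
      ring
    rw [e, norm_neg, norm_mul, norm_pow, Complex.norm_real, Real.norm_eq_abs,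
      abs_of_nonneg (by linarith : (0:ℝ) ≤ z)]
    have h1 := div_pow_le (S - S') M w hM hS 2
    have h2 := div_pow_le (U2 - U2') M w hM hU2 1
    have h3 := div_pow_le (U3 - U3') M w hM hU3 0
    have h4 := div_pow_le (V2 - V2') M w hM hV2 1
    have h5 := div_pow_le (V3 - V3') M w hM hV3 0
    have h6 : ‖(U3 - U3') / M ^ (0 + 1) + 2 * ((U2 - U2') / M ^ (1 + 1)) +
          4 * ((S - S') / M ^ (2 + 1)) + 2 * ((V2 - V2') / M ^ (1 + 1)) +
          (V3 - V3') / M ^ (0 + 1)‖ ≤ 10 * (w / ‖M‖) := by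
      refine (norm_add_le _ _).trans ?_
      refine (add_le_add (norm_add_le _ _) le_rfl).trans ?_
      refine (add_le_add (add_le_add (norm_add_le _ _) le_rfl) le_rfl).trans ?_
      refine (add_le_add (add_le_add (add_le_add (norm_add_le _ _) le_rfl) le_rfl) le_rfl).trans ?_
      rw [norm_mul, norm_mul, norm_mul]
      have e2 : ‖(2:ℂ)‖ = 2 := by simp
      have e4 : ‖(4:ℂ)‖ = 4 := by simp
      rw [e2, e4]
      linarith
    calc z ^ 4 * _ ≤ z ^ 4 * (10 * (w / ‖M‖)) := by gcongr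
      _ = _ := by ring

theorem eW_congr (z : ℝ) (c c' n : ℤ) (j : ℕ) (h : (c - c') % 6 = 0) :
    eW z c n j = eW z c' n j := by
  unfold eW
  congr 1
  funext m
  have : ((m - c) % 6 = 0) ↔ ((m - c') % 6 = 0) := by omega
  simp only [this]

theorem sV_congr (c n : ℤ) (h : n ≠ 0 ∨ (c - 5) % 6 = 0) : sV c n = sV 5 n := by
  unfold sV
  split_ifs with h1
  · rfl
  · have h2 : (c - 5) % 6 = 0 := by
      rcases h with h | h
      · exact absurd h h1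
      · exact h
    obtain ⟨t, ht⟩ : ∃ t : ℤ, c = 5 + 6 * t := ⟨(c - 5) / 6, by omega⟩
    have e : Real.pi * (c:ℝ) / 6 = Real.pi * ((5:ℤ):ℝ) / 6 + t * Real.pi := by
      rw [ht]; push_cast; ring
    rw [e, Real.cos_add_int_mul_pi, Real.sin_add_int_mul_pi]
    congr 2
    have hz : ((-1:ℝ) ^ t) ≠ 0 := zpow_ne_zero _ (by norm_num)
    rw [mul_div_mul_left _ _ hz]

theorem sU_congr (c n : ℤ) (h : n ≠ 0 ∨ c = 1) : sU c n = sU 1 n := by
  unfold sU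
  split_ifs with h1
  · rfl
  · rcases h with h | h
    · exact absurd h h1
    · rw [h]

/-- the difference of the terms -/
theorem term_bound (C : ℝ) (hC : 0 < C)
    (hEB2 : ∀ z : ℝ, 1 ≤ z → ∀ c n : ℤ, n ≠ 0 → ∀ j : ℕ, 2 ≤ j → j ≤ 4 →
      ‖eU z c n j‖ ≤ C * ewt z n ∧ ‖eW z c n j‖ ≤ C * ewt z n)
    (hEB3 : ∀ z : ℝ, 1 ≤ z → ∀ c n1 n2 m : ℤ,
      (n1 ≠ 0 ∨ c % 6 ≠ 0) → (n2 ≠ 0 ∨ (m - c) % 6 ≠ 0) →
      ‖eSg z c n1 n2 m - (sU c n1 + sV (m - c) n2)‖ ≤ C * (ewt z n1 + ewt z n2))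
    (hEB4 : EB4) (hEC1 : EC1)
    (hEC2 : ∀ z : ℝ, 1 ≤ z → ∀ (c a a' : ℤ) (j : ℕ) (n1 : ℤ), j ≤ 2 →
      |a| ≤ 1 → |a'| ≤ 1 → n1 ≠ 0 → ‖gX z c a a' j (2 * n1) 0 n1‖ ≤ C * z ^ 4 * ewt z n1)
    (z : ℝ) (hz : 1 ≤ z) (k m : ℤ) (hk : k ≠ 0) (hcl : (m + 3 * k) % 6 = 0) (j : ℕ)
    (hj : j = 0 ∨ j = 2) (n1 : ℤ) :
    ‖gX z 1 1 (-1) j k m n1 - gE0 z j k m n1‖ ≤
      20 * C * z ^ 4 * Real.exp (-(Real.pi / 3 * z)) / |(k:ℝ)| * (bf n1 + bf (k - n1)) := by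
  have hkpos : 0 < |(k:ℝ)| := abs_pos.2 (by exact_mod_cast hk)
  have hj2 : j ≤ 2 := by omega
  have hz0 : 0 < z := by linarith
  have g1 := ewt_le z hz n1
  have g2 := ewt_le z hz (k - n1)
  have p1 := ewt_nonneg z n1
  have p2 := ewt_nonneg z (k - n1)
  have hE : 0 < Real.exp (-(Real.pi / 3 * z)) := Real.exp_pos _
  by_cases hM : MM z k m n1 = 0
  · have him := MM_im z k m n1
    have hre := MM_re z k m n1
    rw [hM] at him hre
    have hm : m = 0 := by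
      have : (m:ℝ) = 0 := by rw [← hre]; simp
      exact_mod_cast this
    have hk2 : k = 2 * n1 := by
      have h3 : ((k - 2 * n1 : ℤ) : ℝ) * z = 0 := by rw [← him]; simp
      have h4 : ((k - 2 * n1 : ℤ) : ℝ) = 0 := by
        rcases mul_eq_zero.1 h3 with h | h
        · exact h
        · exact absurd h hz0.ne'
      have h5 : k - 2 * n1 = 0 := by exact_mod_cast h4
      linarith
    have hn1 : n1 ≠ 0 := by
      intro h
      apply hk
      rw [hk2, h]; ring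
    have hg : gE0 z j k m n1 = 0 := by
      unfold gE0
      rw [hM]
      have : ∀ (a a' S U2 U3 V2 V3 : ℂ), FX z a a' j 0 S U2 U3 V2 V3 = 0 := by
        intro a a' S U2 U3 V2 V3
        unfold FX
        split_ifs <;> simp
      rw [this]
      simp
    rw [hg, sub_zero, hk2, hm]
    have h1 := hEC2 z hz 1 1 (-1) j n1 hj2 (by norm_num) (by norm_num) hn1
    refine h1.trans ?_
    have h2 : ewt z n1 ≤ Real.exp (-(Real.pi / 3 * z)) * bf n1 / |((2 * n1 : ℤ):ℝ)| := by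
      rw [hk2] at hkpos
      rw [le_div_iff₀ hkpos]
      refine le_trans ?_ g1
      have e1 : |((2 * n1 : ℤ) : ℝ)| = 2 * |(n1:ℝ)| := by
        push_cast
        rw [abs_mul]
        norm_num
      rw [e1]
      nlinarith [abs_nonneg (n1:ℝ)]
    have hb := bf_nonneg (2 * n1 - n1)
    have hb1 := bf_nonneg n1
    rw [hk2] at hkpos
    calc C * z ^ 4 * ewt z n1 ≤ C * z ^ 4 *
          (Real.exp (-(Real.pi / 3 * z)) * bf n1 / |((2 * n1 : ℤ):ℝ)|) := by gcongr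
      _ = 1 * C * z ^ 4 * Real.exp (-(Real.pi / 3 * z)) / |((2 * n1 : ℤ):ℝ)| * (bf n1 + 0) := by
          ring
      _ ≤ 20 * C * z ^ 4 * Real.exp (-(Real.pi / 3 * z)) / |((2 * n1 : ℤ):ℝ)| *
          (bf n1 + bf (2 * n1 - n1)) := by
          gcongr
          norm_num
  · obtain ⟨hM1, hMk1, hMk2⟩ := MM_bound z hz k m n1 hM
    have hM0 : 0 < ‖MM z k m n1‖ := by linarith
    have hform := (hEC1 z hz0 1 1 (-1) j k m n1 hj2).2 hM (Or.inr (by norm_num))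
      (Or.inr (by omega))
    rw [hform]
    unfold gE0
    set M := MM z k m n1 with hMdef
    have key := FX_diff z hz j hj M (eSg z (1 - 3 * n1) n1 (k - n1) m)
      (eU z (1 - 3 * n1) n1 2) (eU z (1 - 3 * n1) n1 3)
      (eW z (m - 1 + 3 * n1) (k - n1) 2) (eW z (m - 1 + 3 * n1) (k - n1) 3)
      (sU 1 n1 + sV 5 (k - n1))
      (if n1 = 0 then ((Real.pi ^ 2 / 9 : ℝ) : ℂ) else 0) (if n1 = 0 then (eZ13 : ℂ) else 0)
      (if k - n1 = 0 then ((Real.pi ^ 2 / 9 : ℝ) : ℂ) else 0)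
      (if k - n1 = 0 then -(eZ13 : ℂ) else 0) (C * (ewt z n1 + ewt z (k - n1))) hM1
      ?_ ?_ ?_ ?_ ?_ ((1:ℤ):ℂ) ((-1:ℤ):ℂ) (by norm_num) (by norm_num)
    · have e1 : ((1:ℤ):ℂ) = 1 := by norm_num
      have e2 : ((-1:ℤ):ℂ) = -1 := by norm_num
      rw [e1, e2] at key
      rw [e1, e2]
      rw [← sub_mul, norm_mul, Complex.norm_I, mul_one, ← Complex.ofReal_sub, Complex.norm_real,
        Real.norm_eq_abs, ← mul_sub, ← Complex.sub_im, abs_mul, abs_of_pos (by norm_num : (0:ℝ) < 2)]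
      have h1 := (Complex.abs_im_le_norm _).trans key
      have h2 : (ewt z n1 + ewt z (k - n1)) / ‖M‖ ≤
          Real.exp (-(Real.pi / 3 * z)) * (bf n1 + bf (k - n1)) / |(k:ℝ)| := by
        rw [div_le_div_iff₀ hM0 hkpos]
        have q1 : ewt z n1 * |(k:ℝ)| ≤ Real.exp (-(Real.pi / 3 * z)) * bf n1 * ‖M‖ := by
          calc ewt z n1 * |(k:ℝ)| ≤ ewt z n1 * ((1 + 2 * |(n1:ℝ)|) * ‖M‖) := by gcongr
            _ = (1 + 2 * |(n1:ℝ)|) * ewt z n1 * ‖M‖ := by ring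
            _ ≤ _ := by gcongr
        have q2 : ewt z (k - n1) * |(k:ℝ)| ≤
            Real.exp (-(Real.pi / 3 * z)) * bf (k - n1) * ‖M‖ := by
          calc ewt z (k - n1) * |(k:ℝ)| ≤
              ewt z (k - n1) * ((1 + 2 * |((k - n1 : ℤ):ℝ)|) * ‖M‖) := by gcongr
            _ = (1 + 2 * |((k - n1 : ℤ):ℝ)|) * ewt z (k - n1) * ‖M‖ := by ring
            _ ≤ _ := by gcongr
        nlinarith
      calc 2 * |_| ≤ 2 * (10 * z ^ 4 * (C * (ewt z n1 + ewt z (k - n1)) / ‖M‖)) := by gcongr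
        _ = 20 * C * z ^ 4 * ((ewt z n1 + ewt z (k - n1)) / ‖M‖) := by ring
        _ ≤ 20 * C * z ^ 4 *
            (Real.exp (-(Real.pi / 3 * z)) * (bf n1 + bf (k - n1)) / |(k:ℝ)|) := by gcongr
        _ = _ := by ring
    · have h1 := hEB3 z hz (1 - 3 * n1) n1 (k - n1) m (by omega) (by omega)
      rw [sU_congr (1 - 3 * n1) n1 (by omega)] at h1
      rw [sV_congr (m - (1 - 3 * n1)) (k - n1) (by omega)] at h1
      exact h1
    · by_cases h : n1 = 0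
      · subst h
        rw [if_pos rfl]
        have := (hEB4 z).1
        norm_num at this ⊢
        rw [this, sub_self, norm_zero]
        have q0 := ewt_nonneg z 0
        have q1 := ewt_nonneg z k
        positivity
      · rw [if_neg h, sub_zero]
        refine ((hEB2 z hz _ n1 h 2 le_rfl (by norm_num)).1).trans ?_
        gcongr
        linarith
    · by_cases h : n1 = 0
      · subst h
        rw [if_pos rfl]
        have := (hEB4 z).2.2.2.2.1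
        norm_num at this ⊢
        rw [this, sub_self, norm_zero]
        have q0 := ewt_nonneg z 0
        have q1 := ewt_nonneg z k
        positivity
      · rw [if_neg h, sub_zero]
        refine ((hEB2 z hz _ n1 h 3 (by norm_num) (by norm_num)).1).trans ?_
        gcongr
        linarith
    · by_cases h : k - n1 = 0
      · rw [if_pos h, h, eW_congr z (m - 1 + 3 * n1) 5 0 2 (by omega), (hEB4 z).2.2.1, sub_self,
          norm_zero]
        have := ewt_nonneg z 0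
        positivity
      · rw [if_neg h, sub_zero]
        refine ((hEB2 z hz _ _ h 2 (by norm_num) (by norm_num)).2).trans ?_
        gcongr
        linarith
    · by_cases h : k - n1 = 0
      · rw [if_pos h, h, eW_congr z (m - 1 + 3 * n1) 5 0 3 (by omega), (hEB4 z).2.2.2.2.2, sub_self,
          norm_zero]
        have := ewt_nonneg z 0
        positivity
      · rw [if_neg h, sub_zero]
        refine ((hEB2 z hz _ _ h 3 (by norm_num) (by norm_num)).2).trans ?_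
        gcongr
        linarith

/-! ## Second part: reflection -/

/-- coefficients with alternating signs -/
noncomputable def alt (f : PowerSeries ℂ) : PowerSeries ℂ :=
  PowerSeries.mk (fun p => (-1) ^ p * PowerSeries.coeff p f)

theorem alt_coeff (f : PowerSeries ℂ) (j : ℕ) :
    PowerSeries.coeff j (alt f) = (-1) ^ j * PowerSeries.coeff j f := by
  unfold alt
  rw [PowerSeries.coeff_mk]

theorem alt_mul (f g : PowerSeries ℂ) : alt f * alt g = alt (f * g) := by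
  ext j
  rw [alt_coeff, PowerSeries.coeff_mul, PowerSeries.coeff_mul, Finset.mul_sum]
  apply Finset.sum_congr rfl
  intro p hp
  rw [alt_coeff, alt_coeff]
  rw [← Finset.HasAntidiagonal.mem_antidiagonal.1 hp, pow_add]
  ring

theorem KA_refl (w : ℂ) (n m : ℤ) : KA w (-n, m) = -KB w (n, m) := by
  unfold KA KB
  push_cast
  ring

theorem KB_refl (w : ℂ) (n m : ℤ) : KB w (-n, m) = -KA w (n, m) := by
  unfold KA KB
  push_cast
  ring

theorem gser_neg (b α : ℂ) : gser (-b) α = -alt (gser b α) := by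
  ext p
  rw [map_neg, alt_coeff]
  unfold gser
  rw [PowerSeries.coeff_mk, PowerSeries.coeff_mk, neg_pow b (p + 1)]
  ring

theorem As_refl (w : ℂ) (n m a : ℤ) : As w ((-n, m), a) = -alt (Bs w ((n, m), a)) := by
  unfold As Bs
  simp only
  rw [KA_refl, inv_neg, gser_neg]

theorem Bs_refl (w : ℂ) (n m a : ℤ) : Bs w ((-n, m), a) = -alt (As w ((n, m), a)) := by
  unfold As Bs
  simp only
  rw [KB_refl, inv_neg, gser_neg]

theorem XX_refl (w : ℂ) (n m n' m' a a' : ℤ) (j : ℕ) :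
    PowerSeries.coeff j (XX w ((-n, m), a) ((-n', m'), a')) =
      -((-1) ^ j * PowerSeries.coeff j (XX w ((n, m), a) ((n', m'), a'))) := by
  have e : XX w ((-n, m), a) ((-n', m'), a') = -alt (XX w ((n, m), a) ((n', m'), a')) := by
    unfold XX
    rw [As_refl, As_refl, Bs_refl, Bs_refl]
    rw [neg_mul_neg, neg_mul_neg, alt_mul, alt_mul]
    ext p
    rw [map_sub, map_neg, alt_coeff, alt_coeff, alt_coeff, map_sub]
    ring
  rw [e, map_neg, alt_coeff]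

/-- the reflection `(n, m) ↦ (-n, m)` -/
def rfl' : (ℤ × ℤ) ≃ (ℤ × ℤ) where
  toFun k := (-k.1, k.2)
  invFun k := (-k.1, k.2)
  left_inv k := by simp
  right_inv k := by simp

theorem Ec_zero (y : ℝ) (j : ℕ) (hj : j = 0 ∨ j = 2) (s : ℤ × ℤ) (hs : s.1 = 0) :
    Ec y j s = 0 := by
  have h1 : Ec y j s = -Ec y j s := by
    unfold Ec Xs
    conv_lhs => rw [← Equiv.tsum_eq rfl']
    rw [← tsum_neg]
    congr 1
    funext k
    obtain ⟨n, m⟩ := k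
    obtain ⟨s1, s2⟩ := s
    simp only at hs
    subst hs
    have e1 : rfl' (n, m) = (-n, m) := rfl
    rw [e1]
    have e2 : ((0:ℤ), s2) - (-n, m) = (-(-n), s2 - m) := by
      ext <;> simp
    have e3 : ((0:ℤ), s2) - (n, m) = (-n, s2 - m) := by
      ext <;> simp
    rw [e2, e3]
    have c1 : (InCl 1 (-n, m)) ↔ InCl 1 (n, m) := by
      unfold InCl; simp only; omega
    have c2 : (InCl 5 (-(-n), s2 - m)) ↔ InCl 5 (-n, s2 - m) := by
      unfold InCl; simp only; omega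
    simp only [c1, c2]
    split_ifs with h
    · rw [XX_refl]
      rcases hj with rfl | rfl <;> norm_num
    · simp
  have h2 : (2:ℂ) * Ec y j s = 0 := by
    linear_combination h1
  rcases mul_eq_zero.1 h2 with h | h
  · norm_num at h
  · exact h

theorem main_bound (C : ℝ) (hC : 0 < C)
    (hEB2 : ∀ z : ℝ, 1 ≤ z → ∀ c n : ℤ, n ≠ 0 → ∀ j : ℕ, 2 ≤ j → j ≤ 4 →
      ‖eU z c n j‖ ≤ C * ewt z n ∧ ‖eW z c n j‖ ≤ C * ewt z n)
    (hEB3 : ∀ z : ℝ, 1 ≤ z → ∀ c n1 n2 m : ℤ,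
      (n1 ≠ 0 ∨ c % 6 ≠ 0) → (n2 ≠ 0 ∨ (m - c) % 6 ≠ 0) →
      ‖eSg z c n1 n2 m - (sU c n1 + sV (m - c) n2)‖ ≤ C * (ewt z n1 + ewt z n2))
    (hEB4 : EB4) (hEC1 : EC1)
    (hEC2 : ∀ z : ℝ, 1 ≤ z → ∀ (c a a' : ℤ) (j : ℕ) (n1 : ℤ), j ≤ 2 →
      |a| ≤ 1 → |a'| ≤ 1 → n1 ≠ 0 → ‖gX z c a a' j (2 * n1) 0 n1‖ ≤ C * z ^ 4 * ewt z n1)
    (hEC3 : EC3) (z : ℝ) (hz : 1 ≤ z) (s : ℤ × ℤ) (hs : InCl 0 s) (hk : s.1 ≠ 0) (j : ℕ)
    (hj : j = 0 ∨ j = 2) (v : ℂ) (hv : HasSum (gE0 z j s.1 s.2) v) :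
    ‖Ec z⁻¹ j s - v‖ ≤ (40 * C * ∑' n : ℤ, bf n) * z ^ 4 * Real.exp (-(Real.pi / 3 * z)) /
      |(s.1:ℝ)| := by
  have hcl : (s.2 + 3 * s.1) % 6 = 0 := by
    unfold InCl at hs
    omega
  have hs0 : s ≠ 0 := by
    intro h
    apply hk
    rw [h]; rfl
  have h1 := hEC3 z (by linarith) 1 5 1 (-1) j s (by norm_num) (by norm_num) (by omega) hs0
    (by unfold InCl; omega)
  have h2 := h1.sub hv
  have h3 : HasSum (fun n1 : ℤ => bf n1 + bf (s.1 - n1)) (∑' n : ℤ, bf n + ∑' n : ℤ, bf n) := by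
    refine summable_bf.hasSum.add ?_
    exact (Equiv.hasSum_iff (Equiv.subLeft s.1)).2 summable_bf.hasSum
  have h4 := h3.mul_left (20 * C * z ^ 4 * Real.exp (-(Real.pi / 3 * z)) / |(s.1:ℝ)|)
  have h5 := h2.norm_le_of_bounded h4 (fun n1 =>
    term_bound C hC hEB2 hEB3 hEB4 hEC1 hEC2 z hz s.1 s.2 hk hcl j hj n1)
  refine h5.trans (le_of_eq ?_)
  ring

theorem thm (_hEA1 : EC237.EA1) (hEB2 : EC237.EB2) (hEB3 : EC237.EB3) (hEB4 : EC237.EB4)
    (hEC1 : EC237.EC1) (hEC2 : EC237.EC2) (hEC3 : EC237.EC3) (hED3 : EC237.ED3) :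
    EC237.ED5 := by
  refine ⟨?_, ?_⟩
  · obtain ⟨C2, hC2, h2⟩ := hEB2
    obtain ⟨C3, hC3, h3⟩ := hEB3
    obtain ⟨C4, hC4, h4⟩ := hEC2
    have hC : 0 < C2 + C3 + C4 := by positivity
    have h2' : ∀ z : ℝ, 1 ≤ z → ∀ c n : ℤ, n ≠ 0 → ∀ j : ℕ, 2 ≤ j → j ≤ 4 →
        ‖eU z c n j‖ ≤ (C2 + C3 + C4) * ewt z n ∧ ‖eW z c n j‖ ≤ (C2 + C3 + C4) * ewt z n := by
      intro z hz c n hn j hj1 hj2
      have := h2 z hz c n hn j hj1 hj2
      have hw := ewt_nonneg z n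
      have hle : C2 * ewt z n ≤ (C2 + C3 + C4) * ewt z n := by
        gcongr
        linarith
      exact ⟨this.1.trans hle, this.2.trans hle⟩
    have h3' : ∀ z : ℝ, 1 ≤ z → ∀ c n1 n2 m : ℤ,
        (n1 ≠ 0 ∨ c % 6 ≠ 0) → (n2 ≠ 0 ∨ (m - c) % 6 ≠ 0) →
        ‖eSg z c n1 n2 m - (sU c n1 + sV (m - c) n2)‖ ≤
          (C2 + C3 + C4) * (ewt z n1 + ewt z n2) := by
      intro z hz c n1 n2 m hn1 hn2
      refine (h3 z hz c n1 n2 m hn1 hn2).trans ?_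
      have hw := ewt_nonneg z n1
      have hw2 := ewt_nonneg z n2
      gcongr
      linarith
    have h4' : ∀ z : ℝ, 1 ≤ z → ∀ (c a a' : ℤ) (j : ℕ) (n1 : ℤ), j ≤ 2 →
        |a| ≤ 1 → |a'| ≤ 1 → n1 ≠ 0 →
        ‖gX z c a a' j (2 * n1) 0 n1‖ ≤ (C2 + C3 + C4) * z ^ 4 * ewt z n1 := by
      intro z hz c a a' j n1 hj ha ha' hn
      refine (h4 z hz c a a' j n1 hj ha ha' hn).trans ?_
      have hw := ewt_nonneg z n1
      have hz0 : 0 ≤ z := by linarith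
      gcongr
      linarith
    have hB : 0 ≤ ∑' n : ℤ, bf n := tsum_nonneg bf_nonneg
    refine ⟨40 * (C2 + C3 + C4) * (∑' n : ℤ, bf n) + 1, by positivity, ?_⟩
    intro z hz s hs hk
    have hz0 : 0 < z := by linarith
    have hle : (40 * (C2 + C3 + C4) * ∑' n : ℤ, bf n) * z ^ 4 *
        Real.exp (-(Real.pi / 3 * z)) / |(s.1:ℝ)| ≤
        (40 * (C2 + C3 + C4) * (∑' n : ℤ, bf n) + 1) * z ^ 4 *
        Real.exp (-(Real.pi / 3 * z)) / |(s.1:ℝ)| := by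
      gcongr
      linarith
    obtain ⟨v0, v2⟩ := hED3 z hz0 s.1 s.2 hk
    exact ⟨(main_bound _ hC h2' h3' hEB4 hEC1 h4' hEC3 z hz s hs hk 0 (Or.inl rfl) _ v0).trans hle,
      (main_bound _ hC h2' h3' hEB4 hEC1 h4' hEC3 z hz s hs hk 2 (Or.inr rfl) _ v2).trans hle⟩
  · intro z _ s _ hs _
    exact ⟨Ec_zero _ 0 (Or.inl rfl) s hs, Ec_zero _ 2 (Or.inr rfl) s hs⟩

end Pool.Agent.Helper64.EC.E_ED5
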